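import Mathlib
import Pool.Agent.NH18.QP.B5

/-!
For every `m ≥ 1`, for almost all `n` for which the pair `(m, n)` is admissible, there are at least
`c n / log^3 n` primes `p < n` such that `q = ⌊(n - p) / m⌋` is prime and `q ^ 2 - 2` has at most five prime
factors, counted with multiplicity, all of them greater than `n ^ (1 / 9)`. The number of exceptional `n ≤ x` is
at most `C x / log^U x`, for every `U`.
-/

namespace Pool.Agent.Results.MP_4011c3_nt.AlmostAllFivePrimeFactors
open Finset Pool.Agent.H373R2.T7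

/-- the pair `(m, n)` is admissible -/
def Admissible (m n : ℕ) : Prop :=
  2 * m + 1 < n ∧ ((m = 1 ∧ Even n) ∨ (m = 3 ∧ ¬ n ≡ 1 [MOD 6]) ∨ m = 2 ∨ 4 ≤ m)

/-- the prime `p` is such that `q = ⌊(n - p) / m⌋` is prime and `q ^ 2 - 2` has at most five prime factors, counted
with multiplicity, all of them greater than `n ^ (1 / 9)` -/
def Rep (m n p : ℕ) : Prop :=
  p.Prime ∧ ((n - p) / m).Prime ∧ (((n - p) / m) ^ 2 - 2).primeFactorsList.length ≤ 5 ∧
    ∀ ℓ : ℕ, ℓ.Prime → ℓ ∣ ((n - p) / m) ^ 2 - 2 → n < ℓ ^ 9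

lemma cop (N m k c : ℕ) (h : N + c = m * k ∨ N = m * k + c) (hc : Nat.Coprime c m) : Nat.Coprime N m := by
  by_contra hne
  obtain ⟨p, hp, hpN, hpm⟩ := Nat.Prime.not_coprime_iff_dvd.1 hne
  have h1 : p ∣ m * k := Dvd.dvd.mul_right hpm k
  have h2 : p ∣ c := by
    rcases h with h | h
    · rw [← h] at h1
      exact (Nat.dvd_add_right hpN).1 h1
    · rw [h] at hpN
      exact (Nat.dvd_add_right h1).1 hpN
  exact (Nat.Prime.not_coprime_iff_dvd.2 ⟨p, hp, h2, hpm⟩) hc

lemma loc (m n : ℕ) (hm : 1 ≤ m) (h : Admissible m n) : ∃ r, r < m ∧ (n - r).Coprime m ∧ Odd (n - r + m) := by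
  obtain ⟨hn, hcase⟩ := h
  have hdm := Nat.div_add_mod (n - 1) m
  have hlt := Nat.mod_lt (n - 1) (show 0 < m by omega)
  generalize hk : (n - 1) / m = k at *
  generalize ha : (n - 1) % m = a at *
  rcases Nat.even_or_odd m with hme | hmo
  · refine ⟨a, hlt, ?_, ?_⟩
    · exact cop (n - a) m k 1 (Or.inr (by omega)) (Nat.coprime_one_left m)
    · have h1 : n - a = m * k + 1 := by omega
      rw [h1]
      have h2 : Even (m * k) := hme.mul_right k
      obtain ⟨t, ht⟩ := h2
      obtain ⟨s, hs⟩ := hme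
      exact ⟨t + s, by omega⟩
  · have h2m : Nat.Coprime 2 m := Nat.coprime_two_left.2 hmo
    obtain ⟨s, hs⟩ := hmo
    rcases Nat.eq_zero_or_pos a with ha0 | ha0
    · rcases Nat.even_or_odd n with hne | hno
      · obtain ⟨t, ht⟩ := hne
        refine ⟨0, by omega, ?_, ⟨t + s, by omega⟩⟩
        rw [Nat.sub_zero]
        exact cop n m k 1 (Or.inr (by omega)) (Nat.coprime_one_left m)
      · obtain ⟨t, ht⟩ := hno
        have hm5 : 5 ≤ m := by
          rcases hcase with ⟨_, ⟨u, hu⟩⟩ | ⟨h3, h6⟩ | h2 | h4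
          · omega
          · exfalso
            apply h6
            unfold Nat.ModEq
            subst h3
            omega
          · omega
          · omega
        refine ⟨3, by omega, ?_, ⟨t + s - 1, by omega⟩⟩
        exact cop (n - 3) m k 2 (Or.inl (by omega)) h2m
    · rcases Nat.even_or_odd (n - a) with hne | hno
      · obtain ⟨t, ht⟩ := hne
        refine ⟨a, hlt, ?_, ⟨t + s, by omega⟩⟩
        exact cop (n - a) m k 1 (Or.inr (by omega)) (Nat.coprime_one_left m)
      · obtain ⟨t, ht⟩ := hno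
        refine ⟨a - 1, by omega, ?_, ⟨t + s + 1, by omega⟩⟩
        exact cop (n - (a - 1)) m k 2 (Or.inr (by omega)) h2m

open Classical in
/-- every good prime `q` gives a good prime `p` -/
lemma rep_card (m n r M : ℕ) (hm : 1 ≤ m) (hr : r < m) (hnM : n ≤ M) (hM : 2 ≤ M) :
    ((Icc 1 M).filter (NH18.QP.Good m M (n - r))).card ≤ ((range n).filter (Rep m n)).card := by
  have key : ∀ q ∈ (Icc 1 M).filter (NH18.QP.Good m M (n - r)), m * q < n - r ∧ Rep m n (n - r - m * q) := by
    intro q hq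
    rw [mem_filter] at hq
    obtain ⟨-, hqp, hpp, hlen, hbig⟩ := hq
    have hp2 := hpp.two_le
    have hlt : m * q < n - r := by
      have h1 : ((m * q : ℕ) : ℤ) < ((n - r : ℕ) : ℤ) := by
        push_cast at hp2 ⊢
        omega
      exact_mod_cast h1
    have hpe : (((n - r : ℕ) : ℤ) - m * q).toNat = n - r - m * q := by
      have h1 : ((n - r - m * q : ℕ) : ℤ) = ((n - r : ℕ) : ℤ) - ((m * q : ℕ) : ℤ) := Nat.cast_sub hlt.le
      have h2 : ((n - r : ℕ) : ℤ) - m * q = ((n - r - m * q : ℕ) : ℤ) := by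
        rw [h1]
        push_cast
        ring
      rw [h2, Int.toNat_natCast]
    rw [hpe] at hpp
    have hdiv : (n - (n - r - m * q)) / m = q := by
      have h1 : n - (n - r - m * q) = r + m * q := by omega
      rw [h1, Nat.add_mul_div_left _ _ (by omega), Nat.div_eq_of_lt hr, zero_add]
    refine ⟨hlt, hpp, ?_, ?_, ?_⟩
    · rw [hdiv]; exact hqp
    · rw [hdiv]; exact hlen
    · rw [hdiv]
      intro ℓ hℓ hd
      have h1 := hbig ℓ hℓ hd
      have hM1 : (1 : ℝ) < M := by exact_mod_cast (by omega : 1 < M)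
      have h2 : (M : ℝ) < (ℓ : ℝ) ^ 9 := by
        calc (M : ℝ) = (M : ℝ) ^ (1 : ℝ) := (Real.rpow_one _).symm
          _ < (M : ℝ) ^ ((49 : ℝ) / 400 * (9 : ℕ)) := Real.rpow_lt_rpow_of_exponent_lt hM1 (by norm_num)
          _ = ((M : ℝ) ^ ((49 : ℝ) / 400)) ^ 9 := by rw [Real.rpow_mul (by linarith), Real.rpow_natCast]
          _ ≤ (ℓ : ℝ) ^ 9 := pow_le_pow_left₀ (by positivity) h1 9
      have h3 : M < ℓ ^ 9 := by exact_mod_cast h2
      omega
  apply card_le_card_of_injOn (fun q => n - r - m * q)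
  · intro q hq
    have hq' := key q (by exact_mod_cast hq)
    rw [mem_coe, mem_filter, mem_range]
    refine ⟨?_, hq'.2⟩
    have : 0 < q := by
      rw [mem_coe, mem_filter, mem_Icc] at hq
      omega
    have h2 : 0 < m * q := by positivity
    have := hq'.1
    simp only
    omega
  · intro q hq q' hq' heq
    have h1 := (key q (by exact_mod_cast hq)).1
    have h2 := (key q' (by exact_mod_cast hq')).1
    simp only at heq
    have h3 : m * q = m * q' := by omega
    exact Nat.eq_of_mul_eq_mul_left (by omega) h3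

open Classical in
/-- For every `m ≥ 1` there is `c > 0` such that for every `U` there is `C` such that for all `x ≥ 2` there are at
most `C x / log^U x` integers `n ≤ x` for which the pair `(m, n)` is admissible and for which there are fewer than
`c n / log^3 n` primes `p < n` such that `q = ⌊(n - p) / m⌋` is prime and `q ^ 2 - 2` has at most five prime factors,
counted with multiplicity, all of them greater than `n ^ (1 / 9)`. -/
theorem result : ∀ m : ℕ, 1 ≤ m → ∃ c : ℝ, 0 < c ∧ ∀ U : ℕ, ∃ C : ℝ, 0 < C ∧ ∀ x : ℕ, 2 ≤ x →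
    (((Icc 1 x).filter (fun n : ℕ => Admissible m n ∧
      (((range n).filter (Rep m n)).card : ℝ) < c * n / Real.log n ^ 3)).card : ℝ) ≤
      C * (x / Real.log x ^ U) := by
  intro m hm
  obtain ⟨c, hc, hmain⟩ := NH18.QP.almostN m hm
  refine ⟨c / 8, by positivity, fun U => ?_⟩
  apply PB.dyadic (fun n : ℕ => Admissible m n ∧
    (((range n).filter (Rep m n)).card : ℝ) < c / 8 * n / Real.log n ^ 3) U
  have hmr : (1 : ℝ) ≤ m := by exact_mod_cast hm
  obtain ⟨x0, h2⟩ := hmain (U + 1)
  obtain ⟨n1, h3⟩ := ev_L' (m + 2 * Real.log 2 + 2)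
  refine ⟨x0 + n1 + 8 * m + 16, fun M hM => ?_⟩
  have hL := h3 M (by omega)
  have hcard := h2 M (by omega)
  clear h2 h3 hmain
  have hM0 : (0 : ℝ) < M := by exact_mod_cast (by omega : 0 < M)
  have hM16 : 16 ≤ M := by omega
  obtain ⟨L, hLd⟩ : ∃ L, L = Real.log M := ⟨_, rfl⟩
  rw [← hLd] at hL hcard ⊢
  have hl2 : 0 < Real.log 2 := Real.log_pos (by norm_num)
  have hL2 : 2 ≤ L := by linarith
  have hL0 : 0 < L := by linarith
  obtain ⟨Exc, hExc⟩ : ∃ Exc, Exc = (Icc 1 M).filter (fun N : ℕ => M / 4 < N ∧ N.Coprime m ∧ Odd (N + m) ∧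
      (((Icc 1 M).filter (NH18.QP.Good m M N)).card : ℝ) < c * M / L ^ 3) := ⟨_, rfl⟩
  rw [← hExc] at hcard
  have hsub : (Ioc (M / 2) M).filter (fun n : ℕ => Admissible m n ∧
      (((range n).filter (Rep m n)).card : ℝ) < c / 8 * n / Real.log n ^ 3) ⊆
      (range m).biUnion (fun r => Exc.image (fun N => N + r)) := by
    intro n hn
    rw [mem_filter, mem_Ioc] at hn
    obtain ⟨⟨hn1, hn2⟩, hadm, hrep⟩ := hn
    obtain ⟨r, hr, hcop, hodd⟩ := loc m n hm hadm
    rw [mem_biUnion]
    refine ⟨r, mem_range.2 hr, ?_⟩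
    rw [mem_image]
    refine ⟨n - r, ?_, by omega⟩
    rw [hExc, mem_filter, mem_Icc]
    refine ⟨⟨by omega, by omega⟩, by omega, hcop, hodd, ?_⟩
    have h1 := rep_card m n r M hm hr hn2 (by omega)
    have h1' : (((Icc 1 M).filter (NH18.QP.Good m M (n - r))).card : ℝ) ≤ ((range n).filter (Rep m n)).card := by
      exact_mod_cast h1
    refine lt_of_le_of_lt h1' (hrep.trans_le ?_)
    -- `n / log^3 n ≤ 8 M / log^3 M`
    have hnr : (M : ℝ) / 2 ≤ n := by
      rw [div_le_iff₀ two_pos]
      exact_mod_cast (by omega : M ≤ n * 2)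
    have h4 : L / 2 ≤ Real.log n := by
      have h5 := Real.log_le_log (by positivity) hnr
      rw [Real.log_div hM0.ne' (by norm_num), ← hLd] at h5
      linarith
    have hnM : (n : ℝ) ≤ M := by exact_mod_cast hn2
    calc c / 8 * n / Real.log n ^ 3 ≤ c / 8 * M / (L / 2) ^ 3 := by
          apply div_le_div₀ (by positivity)
          · exact mul_le_mul_of_nonneg_left hnM (by positivity)
          · positivity
          · exact pow_le_pow_left₀ (by positivity) h4 3
      _ = c * M / L ^ 3 := by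
          field_simp
          norm_num
  have hc1 : ((Ioc (M / 2) M).filter (fun n : ℕ => Admissible m n ∧
      (((range n).filter (Rep m n)).card : ℝ) < c / 8 * n / Real.log n ^ 3)).card ≤ m * Exc.card := by
    refine (card_le_card hsub).trans (card_biUnion_le.trans ?_)
    calc ∑ r ∈ range m, (Exc.image (fun N => N + r)).card ≤ ∑ _r ∈ range m, Exc.card := sum_le_sum fun r _ => card_image_le
      _ = m * Exc.card := by rw [sum_const, card_range, smul_eq_mul]
  have hc2 : (((Ioc (M / 2) M).filter (fun n : ℕ => Admissible m n ∧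
      (((range n).filter (Rep m n)).card : ℝ) < c / 8 * n / Real.log n ^ 3)).card : ℝ) ≤ m * Exc.card := by
    exact_mod_cast hc1
  refine hc2.trans ?_
  calc (m : ℝ) * Exc.card ≤ m * (M / L ^ (U + 1)) := mul_le_mul_of_nonneg_left hcard (by linarith)
    _ = (m / L) * (M / L ^ U) := by rw [pow_succ]; field_simp
    _ ≤ 1 * (M / L ^ U) := by
        apply mul_le_mul_of_nonneg_right _ (by positivity)
        rw [div_le_one hL0]
        linarith
    _ = _ := one_mul _

end Pool.Agent.Results.MP_4011c3_nt.AlmostAllFivePrimeFactors
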