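import Pool.Agent.NH15.FQ.Main
import Pool.Agent.NH18.QP.B5
import Pool.Agent.TH823.Fam.Fam2

/-!
# Primes `p < t` with `q = ⌊(t - p) / m⌋` prime and `q ^ 2 - 2 = P_5`, for large `m` and nearly all `t` of a thin family
-/

set_option autoImplicit false

namespace Pool.Agent.Results.MP_4011c3_nt.LargeModuliThinFamilies

open Finset

/-- the pair `(m, n)` is admissible -/
def Admissible (m n : ℕ) : Prop := 1 ≤ m ∧ 2 * m + 1 < n ∧ (m = 1 ∧ n % 2 = 0 ∨ m = 3 ∧ n % 6 ≠ 1 ∨ m = 2 ∨ 4 ≤ m)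

/-- `p` and `q = ⌊(t - p) / m⌋` are primes; `q ^ 2 - 2` has at most five prime factors (counted with multiplicity),
all of them greater than `(t / m) ^ (1/9)` -/
def Rep (m t p : ℕ) : Prop :=
  p.Prime ∧ ((t - p) / m).Prime ∧ (((t - p) / m) ^ 2 - 2).primeFactorsList.length ≤ 5 ∧
    ∀ ℓ : ℕ, ℓ.Prime → ℓ ∣ ((t - p) / m) ^ 2 - 2 → t < m * ℓ ^ 9

/-- `(m, t)` is admissible, and there are at least `c t / (log t * log ^ 2 (t / m))` primes `p < t` with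
`Rep m t p` -/
def Good (c : ℝ) (m t : ℕ) : Prop :=
  Admissible m t ∧ c * t / (Real.log t * Real.log ((t : ℝ) / m) ^ 2) ≤ ({p : ℕ | p < t ∧ Rep m t p}.ncard : ℝ)

open Classical in
/-- the `a < N` with `⌊a / m⌋ ∈ Q` -/
noncomputable def below (m N : ℕ) (Q : Set ℕ) : Finset ℕ := (range N).filter (fun a => a / m ∈ Q)

open Classical in
/-- the sum of `log p` over the primes `t - N < p ≤ t` with `⌊(t - p) / m⌋ ∈ Q` -/
noncomputable def total (m N t : ℕ) (Q : Set ℕ) : ℝ :=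
  ∑ p ∈ (Ioc (t - N) t).filter (fun p => p.Prime ∧ (t - p) / m ∈ Q), Real.log (p : ℝ)

/-- The additive energy of order `k` of the family `s 1, ..., s x`: the number of the solutions of
`s (v 1) + ... + s (v k) = s (w 1) + ... + s (w k)` with all `v i`, `w i` in `{1, ..., x}`. -/
def energy (k x : ℕ) (s : ℕ → ℤ) : ℕ :=
  (((Fintype.piFinset fun _ : Fin k => Icc 1 x) ×ˢ (Fintype.piFinset fun _ : Fin k => Icc 1 x)).filter
    (fun q => ∑ i, s (q.1 i) = ∑ i, s (q.2 i))).card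

lemma total_eq (m N t : ℕ) (Q : Set ℕ) (ht : N < t) :
    total m N t Q = ∑ b ∈ Pool.Agent.NH15.FQ.SA m N Q, Pool.Agent.W301.SS.om (t - b) := by
  classical
  have h1 : ∑ b ∈ Pool.Agent.NH15.FQ.SA m N Q, Pool.Agent.W301.SS.om (t - b) =
      ∑ b ∈ (Pool.Agent.NH15.FQ.SA m N Q).filter (fun b => (t - b).Prime), Real.log ((t - b : ℕ) : ℝ) := by
    rw [sum_filter]
    rfl
  rw [h1]
  unfold total
  refine sum_nbij' (i := fun p : ℕ => t - p) (j := fun b : ℕ => t - b) ?_ ?_ ?_ ?_ ?_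
  · intro p hp
    simp only [mem_filter, mem_Ioc, Pool.Agent.NH15.FQ.mem_SA] at hp ⊢
    obtain ⟨⟨h2, h3⟩, h4, h5⟩ := hp
    rw [Nat.sub_sub_self h3]
    exact ⟨⟨by omega, h5⟩, h4⟩
  · intro b hb
    simp only [mem_filter, mem_Ioc, Pool.Agent.NH15.FQ.mem_SA] at hb ⊢
    obtain ⟨⟨h2, h3⟩, h4⟩ := hb
    rw [Nat.sub_sub_self (by omega : b ≤ t)]
    exact ⟨⟨by omega, by omega⟩, h4, h3⟩
  · intro p hp
    have := mem_Ioc.1 (mem_filter.1 hp).1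
    omega
  · intro b hb
    have := (Pool.Agent.NH15.FQ.mem_SA.1 (mem_filter.1 hb).1).1
    omega
  · intro p hp
    have := mem_Ioc.1 (mem_filter.1 hp).1
    rw [Nat.sub_sub_self this.2]

lemma good_of {c : ℝ} {m t : ℕ} (h : Pool.Agent.NH15.FQ.Many c m t) : Good c m t := by
  obtain ⟨h1, h2, h3⟩ := h
  exact ⟨⟨by omega, h2, Or.inr (Or.inr (Or.inr h1))⟩, h3⟩

lemma fin (x : ℕ) (P : ℕ → Prop) (Z : ℕ → Prop) (W : ℕ → Prop) :
    {j : ℕ | 1 ≤ j ∧ j ≤ x ∧ P j ∧ Z j ∧ W j}.Finite := (Set.finite_Iic x).subset fun _ hj => hj.2.1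

theorem AN : Pool.Agent.NH15.FQ.AN := Pool.Agent.NH18.QP.almostN 1 le_rfl

/-- **Large moduli.**

* For all `k`, `B`, `E`, `C` there is a `K` such that for all `N ≥ K`, every family `s 1, ..., s x` of integers in
  `[-B N, B N]` with an additive energy of order `k` of at most `log ^ E N` times the minimal possible size
  `x ^ (2 k) / N`, every `m ≥ log ^ K N` and EVERY set `Q` of natural numbers: for all the `j ≤ x` with
  `N < s j ≤ 2 N`, with at most `x / log ^ C N` exceptions, the sum of `log p` over the primes `s j - N < p ≤ s j`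
  with `⌊(s j - p) / m⌋ ∈ Q` is the number of the `a < N` with `⌊a / m⌋ ∈ Q`, with an error of at most
  `N / log ^ C N`.
* There are constants `c > 0` and `D` such that for all `k`, `B`, `E`, `C` there is a `K` such that for all such `N`
  and `s` and every integer `m` with `log ^ K N ≤ m ≤ N / D` all the members `t = s j` in `(N, 2 N]`, with at most
  `x / log ^ C N` exceptions, satisfy: there are at least `c t / (log t * log ^ 2 (t / m))` primes `p < t` such that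
  `q = ⌊(t - p) / m⌋` is prime and `q ^ 2 - 2` has at most five prime factors, all greater than
  `(t / m) ^ (1/9)`.
* This holds for the values `s j = a + f j`, `j ≤ x`, of a polynomial `f` with integer coefficients of degree
  `d ≥ 1`, `N / log ^ E N ≤ x ^ d ≤ B N`, `|a| ≤ B N`; for example (`f = X`) for all the integers of `(N, 2 N]`. -/
theorem result :
    (∀ k B E C : ℕ, ∃ K : ℕ, ∀ N : ℕ, K ≤ N → ∀ (x : ℕ) (s : ℕ → ℤ), (∀ j ∈ Icc 1 x, |s j| ≤ B * N) →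
      (energy k x s : ℝ) * N ≤ Real.log N ^ E * (x : ℝ) ^ (2 * k) →
      ∀ m : ℕ, Real.log N ^ K ≤ m → ∀ Q : Set ℕ,
      ({j : ℕ | 1 ≤ j ∧ j ≤ x ∧ N < s j ∧ s j ≤ 2 * N ∧
        ¬ |total m N (s j).toNat Q - ((below m N Q).card : ℝ)| ≤ N / Real.log N ^ C}.ncard : ℝ) ≤
        x / Real.log N ^ C) ∧
    ∃ c : ℝ, 0 < c ∧ ∃ D : ℕ,
      (∀ k B E C : ℕ, ∃ K : ℕ, ∀ N : ℕ, K ≤ N → ∀ (x : ℕ) (s : ℕ → ℤ), (∀ j ∈ Icc 1 x, |s j| ≤ B * N) →
        (energy k x s : ℝ) * N ≤ Real.log N ^ E * (x : ℝ) ^ (2 * k) →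
        ∀ m : ℕ, Real.log N ^ K ≤ m → D * m ≤ N →
        ({j : ℕ | 1 ≤ j ∧ j ≤ x ∧ N < s j ∧ s j ≤ 2 * N ∧ ¬ Good c m (s j).toNat}.ncard : ℝ) ≤
          x / Real.log N ^ C) ∧
      (∀ f : Polynomial ℤ, 1 ≤ f.natDegree → ∀ B E C : ℕ, ∃ K : ℕ, ∀ N : ℕ, K ≤ N → ∀ x : ℕ,
        x ^ f.natDegree ≤ B * N → (N : ℝ) ≤ Real.log N ^ E * (x : ℝ) ^ f.natDegree → ∀ a : ℤ, |a| ≤ B * N →
        ∀ m : ℕ, Real.log N ^ K ≤ m → D * m ≤ N →
        ({j : ℕ | 1 ≤ j ∧ j ≤ x ∧ N < a + f.eval (j : ℤ) ∧ a + f.eval (j : ℤ) ≤ 2 * N ∧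
          ¬ Good c m (a + f.eval (j : ℤ)).toNat}.ncard : ℝ) ≤ x / Real.log N ^ C) := by
  classical
  refine ⟨fun k B E C => ?_, ?_⟩
  · obtain ⟨K, h⟩ := Pool.Agent.NH15.FQ.genQ k B E C
    refine ⟨K, fun N hN x s hs hE m hm Q => ?_⟩
    refine le_trans ?_ (h N hN x s hs hE m hm Q)
    have hsub : {j : ℕ | 1 ≤ j ∧ j ≤ x ∧ N < s j ∧ s j ≤ 2 * N ∧
        ¬ |total m N (s j).toNat Q - ((below m N Q).card : ℝ)| ≤ N / Real.log N ^ C} ⊆
        {j : ℕ | 1 ≤ j ∧ j ≤ x ∧ N < s j ∧ s j ≤ 2 * N ∧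
        ¬ |∑ b ∈ Pool.Agent.NH15.FQ.SA m N Q, Pool.Agent.W301.SS.om ((s j).toNat - b) -
          ((Pool.Agent.NH15.FQ.SA m N Q).card : ℝ)| ≤ N / Real.log N ^ C} := by
      rintro j ⟨q1, q2, q3, q4, q5⟩
      refine ⟨q1, q2, q3, q4, ?_⟩
      rw [total_eq m N _ Q (by omega)] at q5
      exact q5
    exact_mod_cast Set.ncard_le_ncard hsub (fin x _ _ _)
  · obtain ⟨c, hc, D, h⟩ := Pool.Agent.NH15.FQ.low AN
    have hgen : ∀ k B E C : ℕ, ∃ K : ℕ, ∀ N : ℕ, K ≤ N → ∀ (x : ℕ) (s : ℕ → ℤ), (∀ j ∈ Icc 1 x, |s j| ≤ B * N) →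
        (energy k x s : ℝ) * N ≤ Real.log N ^ E * (x : ℝ) ^ (2 * k) →
        ∀ m : ℕ, Real.log N ^ K ≤ m → D * m ≤ N →
        ({j : ℕ | 1 ≤ j ∧ j ≤ x ∧ N < s j ∧ s j ≤ 2 * N ∧ ¬ Good c m (s j).toNat}.ncard : ℝ) ≤
          x / Real.log N ^ C := by
      intro k B E C
      obtain ⟨K, h1⟩ := h k B E C
      refine ⟨K, fun N hN x s hs hE m hm hD => ?_⟩
      refine le_trans ?_ (h1 N hN x s hs hE m hm hD)
      have hsub : {j : ℕ | 1 ≤ j ∧ j ≤ x ∧ N < s j ∧ s j ≤ 2 * N ∧ ¬ Good c m (s j).toNat} ⊆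
          {j : ℕ | 1 ≤ j ∧ j ≤ x ∧ N < s j ∧ s j ≤ 2 * N ∧ ¬ Pool.Agent.NH15.FQ.Many c m (s j).toNat} := by
        rintro j ⟨q1, q2, q3, q4, q5⟩
        exact ⟨q1, q2, q3, q4, fun q6 => q5 (good_of q6)⟩
      exact_mod_cast Set.ncard_le_ncard hsub (fin x _ _ _)
    refine ⟨c, hc, D, hgen, fun f hd B E C => ?_⟩
    obtain ⟨k, B', hB', N1, h1⟩ := Pool.Agent.TH823.Fam.poly_family f hd B E
    obtain ⟨K, h2⟩ := hgen k B' (E + 1) C
    obtain ⟨N2, h3⟩ := Filter.eventually_atTop.1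
      ((Real.tendsto_log_atTop.comp tendsto_natCast_atTop_atTop).eventually_ge_atTop (1 : ℝ) :
        ∀ᶠ N : ℕ in Filter.atTop, (1 : ℝ) ≤ Real.log (N : ℝ))
    refine ⟨K + N1 + N2, fun N hN x hx1 hx2 a ha m hm hD => ?_⟩
    obtain ⟨h4, h5⟩ := h1 N (by omega) x hx1 hx2 a ha
    have hL := h3 N (by omega)
    exact h2 N (by omega) x (fun j => a + f.eval (j : ℤ)) h4 h5 m
      ((pow_le_pow_right₀ hL (by omega)).trans hm) hD

end Pool.Agent.Results.MP_4011c3_nt.LargeModuliThinFamilies
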